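import Pool.Agent.H503R3.FR.Stmts

set_option autoImplicit false

/-! Task HT of project H503-FR: Koszul vanishing on `D` near a vertex prime. -/

open IsLocalRing MvPolynomial

namespace H503R3.FR.HT339

variable {k : Type} [Field k]

theorem isEv_one : IsEv (1 : D k) := by
  intro m hm
  have h : m = 0 := by
    have := MvPolynomial.mem_support_iff.1 hm
    rw [MvPolynomial.coeff_one] at this
    by_contra h
    exact this (if_neg fun h' => h h'.symm)
  subst h
  simp

theorem isEv_mul {a b : D k} (ha : IsEv a) (hb : IsEv b) : IsEv (a * b) := by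
  classical
  intro m hm
  have h := MvPolynomial.support_mul a b hm
  rw [Finset.mem_add] at h
  obtain ⟨m1, h1, m2, h2, rfl⟩ := h
  have h3 := (ha m1 h1).add (hb m2 h2)
  have h4 : (m1 + m2) 1 + (m1 + m2) 2 = m1 1 + m1 2 + (m2 1 + m2 2) := by
    simp only [Finsupp.add_apply]
    omega
  rwa [h4]

/-- the submonoid of even elements outside `P` -/
noncomputable def SP (P : Ideal (R k)) [hP : P.IsPrime] : Submonoid (D k) where
  carrier := MP P
  one_mem' := by
    refine ⟨isEv_one, ?_, ?_⟩
    · rw [map_one]; exact one_mem _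
    · intro h
      apply hP.ne_top
      rw [Ideal.eq_top_iff_one]
      convert h using 1
      exact Subtype.ext (by simp)
  mul_mem' := by
    rintro a b ⟨ha, ha1, ha2⟩ ⟨hb, hb1, hb2⟩
    refine ⟨isEv_mul ha hb, ?_, ?_⟩
    · rw [map_mul]; exact mul_mem ha1 hb1
    · intro h
      have h' : (⟨E k a, ha1⟩ : R k) * ⟨E k b, hb1⟩ ∈ P := by
        convert h using 1
        exact Subtype.ext (by simp)
      rcases hP.mem_or_mem h' with h | h
      · exact ha2 h
      · exact hb2 h

theorem mem_SP {P : Ideal (R k)} [P.IsPrime] {v : D k} : v ∈ SP P ↔ v ∈ MP P := Iff.rfl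

theorem SP_le (P : Ideal (R k)) [P.IsPrime] : SP P ≤ nonZeroDivisors (D k) := by
  intro v hv
  rw [mem_nonZeroDivisors_iff_ne_zero]
  rintro rfl
  obtain ⟨_, h1, h2⟩ := mem_SP.1 hv
  apply h2
  convert P.zero_mem using 1
  exact Subtype.ext (by simp)

theorem taskHT : TaskHT := by
  intro hKV _ hRoot k _ _ _ P hP zs zr hzev hreg hmap hzrP n x hn hx y hy hxy
  obtain ⟨hR1, hR2⟩ := hRoot k
  have hinj : Function.Injective (E k) := MvPolynomial.expand_injective (by norm_num)
  let T := Localization (SP P)
  have hTinj : Function.Injective (algebraMap (D k) T) := IsLocalization.injective T (SP_le P)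
  have hDtwo : (2 : D k) = 0 := by
    have : (2 : D k) = C 2 := by rw [map_ofNat]
    rw [this, CharTwo.two_eq_zero, map_zero]
  have hT2 : ∀ m : T, m + m = 0 := by
    intro m
    have : (2 : T) = 0 := by
      rw [← map_ofNat (algebraMap (D k) T) 2, hDtwo, map_zero]
    rw [← two_mul, this, zero_mul]
  have : CharP (D k) 2 := CharTwo.of_one_ne_zero_of_two_eq_zero one_ne_zero hDtwo
  have hregT : RingTheory.Sequence.IsWeaklyRegular T (zs.map (algebraMap (D k) T)) :=
    hreg.of_isLocalization T (SP P)
  have hH := hKV T T hT2 n (fun l => algebraMap (D k) T (y l)) (zs.map (algebraMap (D k) T))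
    hregT ?_ (by simpa using hn)
  · intro c hc
    obtain ⟨t, ht0, hts, htc⟩ := hH (fun l => algebraMap (D k) T (c l)) (by
      simp only [smul_eq_mul, ← map_mul, ← map_sum, hc, map_zero])
    obtain ⟨b, hb⟩ := IsLocalization.exist_integer_multiples_of_finite (SP P)
      (fun q : Fin n × Fin n => t q.1 q.2)
    choose t' ht' using hb
    refine ⟨b, mem_SP.1 b.2, fun l m => t' (l, m), ?_, ?_, ?_⟩
    · intro l
      apply hTinj
      rw [ht', ht0, smul_zero, map_zero]
    · intro l m
      apply hTinj
      rw [ht', ht']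
      simp only [hts l m]
    · intro l
      apply hTinj
      rw [map_mul, map_sum]
      have h1 : algebraMap (D k) T (c l) = ∑ m, algebraMap (D k) T (y m) • t l m := htc l
      rw [h1, Finset.mul_sum]
      refine Finset.sum_congr rfl fun m _ => ?_
      rw [map_mul, ht', smul_eq_mul, Algebra.smul_def]
      ring
  · intro z hz
    obtain ⟨z0, hz0, rfl⟩ := List.mem_map.1 hz
    have h1 : E k z0 ∈ zs.map (E k) := List.mem_map.2 ⟨z0, hz0, rfl⟩
    rw [← hmap] at h1
    have h1' : ∃ z' ∈ zr, (z' : D k) = E k z0 := by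
      simpa using h1
    obtain ⟨z', hz', hzE⟩ := h1'
    obtain ⟨u, huP, N, hu⟩ := hx z' (hzrP z' hz')
    obtain ⟨a, ha⟩ := (Ideal.mem_span_range_iff_exists_fun).1 hu
    have ha' : ∑ i, (a i : D k) * (x i : D k) = (u : D k) * (E k z0) ^ N := by
      have := congrArg (fun q : R k => (q : D k)) ha
      simpa [hzE] using this
    obtain ⟨v, hvev, hv⟩ := hR2 u u.2
    choose b hb using fun i => hR1 (a i : D k)
    have hsq : E k (v * z0 ^ (2 * N)) = E k (∑ i, b i * y i) := by
      rw [map_mul, map_sum, map_pow, ← hv]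
      have h2 : ((u : D k) * (E k z0) ^ N) ^ 2 = ∑ i, ((a i : D k) * (x i : D k)) ^ 2 := by
        rw [← ha', CharTwo.sum_sq]
      have h3 : ∑ i, E k (b i * y i) = ∑ i, ((a i : D k) * (x i : D k)) ^ 2 := by
        refine Finset.sum_congr rfl fun i _ => ?_
        rw [map_mul, mul_pow, hb, hxy]
      rw [h3, ← h2]
      ring
    have hvz := hinj hsq
    have hvMP : v ∈ MP P := by
      have hmem : E k v ∈ R k := by rw [← hv]; exact pow_mem u.2 2
      refine ⟨hvev, hmem, ?_⟩
      intro h
      apply huP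
      apply hP.mem_of_pow_mem 2
      convert h using 1
      exact Subtype.ext (by simp [hv])
    have hunit : IsUnit (algebraMap (D k) T v) :=
      IsLocalization.map_units T (⟨v, mem_SP.2 hvMP⟩ : SP P)
    refine ⟨2 * N, ?_⟩
    rw [← Ideal.unit_mul_mem_iff_mem _ hunit, ← map_pow, ← map_mul, hvz, map_sum]
    refine Ideal.sum_mem _ fun i _ => ?_
    rw [map_mul]
    exact Ideal.mul_mem_left _ _ (Ideal.subset_span ⟨i, rfl⟩)

end H503R3.FR.HT339
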